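import Pool.Agent.H458R4.Sel

/-!
# Generic existence of selective independent families implies `cov(M) = 𝔠`
-/

namespace Pool.Agent.Y803.GE

open Cardinal Set Pool.Agent.H458R4.Sel

/-! ### Properties of the density filter -/

theorem df_inter {I : Set (Set ℕ)} (hI : Independent I) {X Y : Set ℕ} (hX : X ∈ densityFilter I)
    (hY : Y ∈ densityFilter I) : X ∩ Y ∈ densityFilter I := by
  have key : ∀ A B, IsFF I A B →
      ∃ A' B', A ⊆ A' ∧ B ⊆ B' ∧ IsFF I A' B' ∧ (cell A' B' \ (X ∩ Y)).Finite := by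
    intro A B hAB
    obtain ⟨A1, B1, h1, h2, h3, h4⟩ := hX.2 A B hAB
    obtain ⟨A2, B2, h5, h6, h7, h8⟩ := hY.2 A1 B1 h3
    refine ⟨A2, B2, h1.trans h5, h2.trans h6, h7, (h4.union h8).subset ?_⟩
    rintro n ⟨hn, hn'⟩
    by_cases hnX : n ∈ X
    · exact Or.inr ⟨hn, fun hnY => hn' ⟨hnX, hnY⟩⟩
    · exact Or.inl ⟨⟨fun Z hZ => hn.1 Z (h5 hZ), fun Z hZ => hn.2 Z (h6 hZ)⟩, hnX⟩
  refine ⟨?_, key⟩
  obtain ⟨A, B, _, _, h3, h4⟩ := key ∅ ∅ ⟨fun X hX => absurd hX (Finset.notMem_empty _),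
      fun X hX => absurd hX (Finset.notMem_empty _), fun X hX => absurd hX (Finset.notMem_empty _)⟩
  intro hfin
  apply hI.2 A B h3
  refine (h4.union hfin).subset fun n hn => ?_
  by_cases h : n ∈ X ∩ Y
  · exact Or.inr h
  · exact Or.inl ⟨hn, h⟩

theorem qset_inj {F : Set (Set ℕ)} (hQ : QSet F) (p : ℕ → ℕ) (hp : ∀ n, {z | p z = n}.Finite) :
    ∃ A ∈ F, Set.InjOn p A := by
  obtain ⟨A, hA, h⟩ := hQ (fun n => {z | p z = n}) hp
    (fun m => ⟨p m, rfl, fun n hn => hn.symm⟩)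
  exact ⟨A, hA, fun z hz z' hz' hzz => h (p z) ⟨hz, rfl⟩ ⟨hz', hzz.symm⟩⟩

theorem sparse {F : Set (Set ℕ)} (hP : PSet F) (hQ : QSet F)
    (hcap : ∀ X ∈ F, ∀ Y ∈ F, X ∩ Y ∈ F) (L H : ℕ → ℕ) (hL : ∀ n, {z | L z ≠ n} ∈ F) :
    ∃ D ∈ F, ∀ z ∈ D, ∀ z' ∈ D, z ≠ z' →
      (L z < L z' ∧ H z ≤ L z') ∨ (L z' < L z ∧ H z' ≤ L z) := by
  classical
  obtain ⟨B, hB, hBfin⟩ := hP (fun n => {z | L z ≠ n}) hL
  have hfin : ∀ n, {z | z ∈ B ∧ L z ≤ n}.Finite := by
    intro n
    refine (Set.Finite.biUnion (Finset.finite_toSet (Finset.range (n + 1)))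
      (fun i _ => hBfin i)).subset ?_
    rintro z ⟨hz, hz'⟩
    simp only [mem_iUnion, Finset.coe_range, Set.mem_Iio, exists_prop]
    exact ⟨L z, by omega, hz, fun h => h rfl⟩
  let h : ℕ → ℕ := fun n => ((hfin n).toFinset.sup H) + n + 1
  have hh : ∀ n, n < h n := fun n => by simp only [h]; omega
  have hhH : ∀ n z, z ∈ B → L z ≤ n → H z ≤ h n := by
    intro n z hz hz'
    have : H z ≤ (hfin n).toFinset.sup H :=
      Finset.le_sup (f := H) ((hfin n).mem_toFinset.2 ⟨hz, hz'⟩)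
    simp only [h]
    omega
  let a : ℕ → ℕ := fun m => Nat.rec (motive := fun _ => ℕ) 0 (fun _ r => h r) m
  have a0 : a 0 = 0 := rfl
  have aS : ∀ m, a (m + 1) = h (a m) := fun m => rfl
  have amono : StrictMono a := strictMono_nat_of_lt_succ fun m => by rw [aS]; exact hh _
  have age : ∀ m, m ≤ a m := fun m => amono.le_apply
  let blk : ℕ → ℕ := fun z => Nat.findGreatest (fun m => a m ≤ L z) (L z)
  have blk1 : ∀ z, a (blk z) ≤ L z := by
    intro z
    have h0 : (fun m => a m ≤ L z) 0 := by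
      show a 0 ≤ L z
      rw [a0]
      exact Nat.zero_le _
    exact Nat.findGreatest_spec (P := fun m => a m ≤ L z) (Nat.zero_le (L z)) h0
  have blk2 : ∀ z, L z < a (blk z + 1) := by
    intro z
    by_contra hcon
    push Not at hcon
    have h1 : blk z + 1 ≤ L z := (age _).trans hcon
    have h2 : blk z + 1 ≤ blk z := Nat.le_findGreatest h1 hcon
    omega
  have hp1 : ∀ n, {z | (if z ∈ B then blk z / 2 else z) = n}.Finite := by
    intro n
    refine ((hfin (a (2 * n + 2))).union (Set.finite_singleton n)).subset ?_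
    intro z hz
    simp only [Set.mem_ofPred_eq] at hz
    by_cases hzB : z ∈ B
    · rw [if_pos hzB] at hz
      left
      have hk : blk z + 1 ≤ 2 * n + 2 := by omega
      exact ⟨hzB, (blk2 z).le.trans (amono.monotone hk)⟩
    · rw [if_neg hzB] at hz
      exact Or.inr hz
  have hp2 : ∀ n, {z | (if z ∈ B then (blk z + 1) / 2 else z) = n}.Finite := by
    intro n
    refine ((hfin (a (2 * n + 2))).union (Set.finite_singleton n)).subset ?_
    intro z hz
    simp only [Set.mem_ofPred_eq] at hz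
    by_cases hzB : z ∈ B
    · rw [if_pos hzB] at hz
      left
      have hk : blk z + 1 ≤ 2 * n + 2 := by omega
      exact ⟨hzB, (blk2 z).le.trans (amono.monotone hk)⟩
    · rw [if_neg hzB] at hz
      exact Or.inr hz
  obtain ⟨A1, hA1, hi1⟩ := qset_inj hQ _ hp1
  obtain ⟨A2, hA2, hi2⟩ := qset_inj hQ _ hp2
  refine ⟨(A1 ∩ A2) ∩ B, hcap _ (hcap _ hA1 _ hA2) _ hB, ?_⟩
  have main : ∀ z z', z ∈ (A1 ∩ A2) ∩ B → z' ∈ (A1 ∩ A2) ∩ B → z ≠ z' → blk z ≤ blk z' →
      (L z < L z' ∧ H z ≤ L z') := by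
    intro z z' hz hz' hne hle
    have n1 : blk z / 2 ≠ blk z' / 2 := by
      intro h'
      apply hne
      apply hi1 hz.1.1 hz'.1.1
      simp only
      rw [if_pos hz.2, if_pos hz'.2, h']
    have n2 : (blk z + 1) / 2 ≠ (blk z' + 1) / 2 := by
      intro h'
      apply hne
      apply hi2 hz.1.2 hz'.1.2
      simp only
      rw [if_pos hz.2, if_pos hz'.2, h']
    have h3 : blk z + 2 ≤ blk z' := by omega
    have h4 : a (blk z + 2) ≤ L z' := (amono.monotone h3).trans (blk1 z')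
    have h5 : a (blk z + 1) < a (blk z + 2) := amono (Nat.lt_succ_self (blk z + 1))
    refine ⟨(blk2 z).trans (h5.trans_le h4), ?_⟩
    refine (hhH (a (blk z + 1)) z hz.2 (blk2 z).le).trans ?_
    exact h4
  intro z hz z' hz' hne
  rcases le_total (blk z) (blk z') with h1 | h1
  · exact Or.inl (main z z' hz hz' hne h1)
  · exact Or.inr (main z' z hz' hz hne.symm h1)

/-! ### The family -/

/-- the initial segment of a set -/
noncomputable def trunc (m : ℕ) (x : Set ℕ) : Finset ℕ :=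
  open Classical in (Finset.range m).filter (· ∈ x)

theorem trunc_ne {x y : Set ℕ} (h : x ≠ y) : ∀ᶠ m in Filter.atTop, trunc m x ≠ trunc m y := by
  have : ∃ k, ¬ (k ∈ x ↔ k ∈ y) := by
    by_contra hcon
    push Not at hcon
    exact h (Set.ext hcon)
  obtain ⟨k, hk⟩ := this
  filter_upwards [Filter.eventually_gt_atTop k] with m hm heq
  apply hk
  have h1 : k ∈ trunc m x ↔ k ∈ x := by simp [trunc, hm]
  have h2 : k ∈ trunc m y ↔ k ∈ y := by simp [trunc, hm]
  rw [← h1, ← h2, heq]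

/-- the points -/
abbrev Pt : Type := List (List ℕ) × (ℕ × Finset (Finset ℕ))

/-- the conditions: the first kind is given by a dense set -/
def Yp (𝓓 : Set (Set (List ℕ))) : 𝓓 ⊕ ℕ → List (List ℕ) → Prop
  | Sum.inl D, t => ∀ σ : List ℕ, Encodable.encode σ < t.length →
      ∃ d ∈ D.1, d <+: σ ++ t.getD (Encodable.encode σ) []
  | Sum.inr n, t => t.length ≠ n

theorem exists_ext {𝓓 : Set (Set (List ℕ))} (hd : ∀ D ∈ 𝓓, ∀ s, ∃ t ∈ D, s <+: t)
    (G : Finset 𝓓) (σ : List ℕ) : ∃ w : List ℕ, ∀ D ∈ G, ∃ d ∈ D.1, d <+: σ ++ w := by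
  classical
  induction G using Finset.induction_on with
  | empty => exact ⟨[], fun D hD => absurd hD (Finset.notMem_empty _)⟩
  | insert D G _ ih =>
    obtain ⟨w, hw⟩ := ih
    obtain ⟨t, ht, u, hu⟩ := hd D.1 D.2 (σ ++ w)
    refine ⟨w ++ u, fun D' hD' => ?_⟩
    rcases Finset.mem_insert.1 hD' with rfl | h
    · exact ⟨t, ht, by rw [← hu, List.append_assoc]⟩
    · obtain ⟨d, hd', hd''⟩ := hw D' h
      exact ⟨d, hd', hd''.trans ⟨u, by rw [List.append_assoc]⟩⟩

theorem exists_list {𝓓 : Set (Set (List ℕ))} (hd : ∀ D ∈ 𝓓, ∀ s, ∃ t ∈ D, s <+: t)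
    (T : Finset (𝓓 ⊕ ℕ)) : ∀ᶠ N in Filter.atTop, ∃ t : List (List ℕ), t.length = N ∧
      ∀ j ∈ T, Yp 𝓓 j t := by
  classical
  have h1 : ∀ᶠ N in Filter.atTop, ∀ j ∈ T, ∀ n, j = Sum.inr n → N ≠ n := by
    refine (Filter.eventually_all_finset T).2 fun j _ => ?_
    rcases j with D | n
    · exact Filter.Eventually.of_forall fun N n h => by simp at h
    · filter_upwards [Filter.eventually_gt_atTop n] with N hN n' h
      have : n = n' := Sum.inr.inj h
      omega
  filter_upwards [h1] with N hN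
  let G : Finset 𝓓 := T.preimage Sum.inl (Sum.inl_injective.injOn)
  choose w hw using exists_ext hd G
  refine ⟨(List.range N).map fun i => ((Encodable.decode (α := List ℕ) i).map w).getD [],
    by simp, fun j hj => ?_⟩
  rcases j with D | n
  · intro σ hσ
    obtain ⟨d, hd1, hd2⟩ := hw σ D (Finset.mem_preimage.2 hj)
    refine ⟨d, hd1, ?_⟩
    rw [List.length_map, List.length_range] at hσ
    have h2 : ((List.range N).map fun i => ((Encodable.decode (α := List ℕ) i).map w).getD []).getD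
        (Encodable.encode σ) [] = w σ := by
      rw [List.getD_eq_getElem?_getD, List.getElem?_map, List.getElem?_range hσ]
      simp
    rw [h2]
    exact hd2
  · show (List.map _ _).length ≠ n
    rw [List.length_map, List.length_range]
    exact hN _ hj n rfl

section

variable (𝓓 : Set (Set (List ℕ))) (e : (𝓓 ⊕ ℕ) × ℕ → Set ℕ) (φ : ℕ ≃ Pt)

/-- the members of the family -/
def M (q : (𝓓 ⊕ ℕ) × ℕ) : Set ℕ :=
  {z | Yp 𝓓 q.1 (φ z).1 ∧ trunc (φ z).2.1 (e q) ∈ (φ z).2.2}

variable {𝓓 e}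

theorem M_indep (hd : ∀ D ∈ 𝓓, ∀ s, ∃ t ∈ D, s <+: t) (he : Function.Injective e)
    (A B : Finset ((𝓓 ⊕ ℕ) × ℕ)) (hAB : Disjoint A B) :
    {z | (∀ q ∈ A, z ∈ M 𝓓 e φ q) ∧ ∀ q ∈ B, z ∉ M 𝓓 e φ q}.Infinite := by
  classical
  have h1 : ∀ᶠ m in Filter.atTop, ∀ q ∈ A, ∀ q' ∈ B, trunc m (e q) ≠ trunc m (e q') := by
    refine (Filter.eventually_all_finset A).2 fun q hq =>
      (Filter.eventually_all_finset B).2 fun q' hq' => trunc_ne fun h => ?_
    have := he h
    subst this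
    exact Finset.disjoint_left.1 hAB hq hq'
  obtain ⟨m, hm⟩ := h1.exists
  have h2 := exists_list hd (A.image Prod.fst)
  intro hfin
  obtain ⟨K, hK⟩ := ((hfin.image fun z => (φ z).1.length)).bddAbove
  obtain ⟨N, ⟨t, ht, htj⟩, hN⟩ := (h2.and (Filter.eventually_gt_atTop K)).exists
  have h3 : φ.symm (t, (m, A.image fun q => trunc m (e q))) ∈
      {z | (∀ q ∈ A, z ∈ M 𝓓 e φ q) ∧ ∀ q ∈ B, z ∉ M 𝓓 e φ q} := by
    refine ⟨fun q hq => ⟨?_, ?_⟩, fun q' hq' h' => ?_⟩
    · rw [Equiv.apply_symm_apply]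
      exact htj _ (Finset.mem_image_of_mem _ hq)
    · rw [Equiv.apply_symm_apply]
      exact Finset.mem_image.2 ⟨q, hq, rfl⟩
    · have h4 := h'.2
      rw [Equiv.apply_symm_apply] at h4
      obtain ⟨q, hq, hqq⟩ := Finset.mem_image.1 h4
      exact hm q hq q' hq' hqq
  have h5 := hK ⟨_, h3, rfl⟩
  simp only [Equiv.apply_symm_apply, ht] at h5
  omega

theorem M_injective (hd : ∀ D ∈ 𝓓, ∀ s, ∃ t ∈ D, s <+: t) (he : Function.Injective e) :
    Function.Injective (M 𝓓 e φ) := by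
  intro q q' h
  by_contra hne
  obtain ⟨z, h1, h2⟩ := (M_indep φ hd he {q} {q'} (by simpa using hne)).nonempty
  apply h2 q' (Finset.mem_singleton_self _)
  rw [← h]
  exact h1 q (Finset.mem_singleton_self _)

theorem independent_range (hd : ∀ D ∈ 𝓓, ∀ s, ∃ t ∈ D, s <+: t) (he : Function.Injective e) :
    Independent (range (M 𝓓 e φ)) := by
  classical
  have key : ∀ A B, IsFF (range (M 𝓓 e φ)) A B → (cell A B).Infinite := by
    intro A B hAB
    have hM := M_injective φ hd he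
    let A' := A.preimage (M 𝓓 e φ) hM.injOn
    let B' := B.preimage (M 𝓓 e φ) hM.injOn
    have h1 := M_indep φ hd he A' B' (by
      rw [Finset.disjoint_left]
      intro q hq hq'
      exact hAB.disj _ (Finset.mem_preimage.1 hq) (Finset.mem_preimage.1 hq'))
    refine h1.mono ?_
    rintro z ⟨h2, h3⟩
    refine ⟨fun X hX => ?_, fun X hX => ?_⟩
    · obtain ⟨q, rfl⟩ := hAB.left X hX
      exact h2 q (Finset.mem_preimage.2 hX)
    · obtain ⟨q, rfl⟩ := hAB.right X hX
      exact h3 q (Finset.mem_preimage.2 hX)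
  refine ⟨fun X hX => ?_, key⟩
  refine (key {X} ∅ ⟨fun Y hY => by rw [Finset.mem_singleton.1 hY]; exact hX,
      fun Y hY => absurd hY (Finset.notMem_empty _), fun Y _ => Finset.notMem_empty _⟩).mono ?_
  intro n hn
  exact hn.1 X (Finset.mem_singleton_self _)

theorem mem_df (hd : ∀ D ∈ 𝓓, ∀ s, ∃ t ∈ D, s <+: t) (he : Function.Injective e)
    {I : Set (Set ℕ)} (hsub : range (M 𝓓 e φ) ⊆ I) (hI : Independent I) (j : 𝓓 ⊕ ℕ) :
    {z | Yp 𝓓 j (φ z).1} ∈ densityFilter I := by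
  classical
  refine ⟨?_, fun A B hAB => ?_⟩
  · exact (hI.1 _ (hsub ⟨(j, 0), rfl⟩)).mono fun z hz => hz.1
  · have h1 : ∃ k : ℕ, M 𝓓 e φ (j, k) ∉ B := by
      by_contra hcon
      push Not at hcon
      have h2 : Function.Injective fun k : ℕ => M 𝓓 e φ (j, k) := fun k k' h =>
        (Prod.mk.inj (M_injective φ hd he h)).2
      exact Set.infinite_range_of_injective h2
        ((Finset.finite_toSet B).subset (by rintro _ ⟨k, rfl⟩; exact hcon k))
    obtain ⟨k, hk⟩ := h1
    refine ⟨insert (M 𝓓 e φ (j, k)) A, B, Finset.subset_insert _ _, Finset.Subset.refl _,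
      ⟨fun X hX => ?_, hAB.right, fun X hX => ?_⟩, ?_⟩
    · rcases Finset.mem_insert.1 hX with rfl | h
      · exact hsub ⟨_, rfl⟩
      · exact hAB.left X h
    · rcases Finset.mem_insert.1 hX with rfl | h
      · exact hk
      · exact hAB.disj X h
    · have : cell (insert (M 𝓓 e φ (j, k)) A) B \ {z | Yp 𝓓 j (φ z).1} = ∅ := by
        rw [eq_empty_iff_forall_notMem]
        rintro z ⟨hz, hz'⟩
        exact hz' (hz.1 _ (Finset.mem_insert_self _ _)).1
      rw [this]
      exact finite_empty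

end

/-! ### The real -/

/-- **Theorem.** If each independent family with fewer than `𝔠` members is contained in a selective
independent family then `cov(M) = 𝔠`. -/
theorem cohenMA_of_generic
    (hG : ∀ I₀ : Set (Set ℕ), Independent I₀ → #I₀ < 𝔠 → ∃ I, I₀ ⊆ I ∧ Selective I) :
    CohenMA := by
  classical
  intro 𝓓 hc hd
  have hJ : #((𝓓 ⊕ ℕ) × ℕ) < 𝔠 := by
    rw [mk_prod, mk_sum]
    simp only [Cardinal.lift_id, mk_nat]
    exact mul_lt_of_lt aleph0_le_continuum
      (add_lt_of_lt aleph0_le_continuum hc aleph0_lt_continuum) aleph0_lt_continuum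
  have hset : #(Set ℕ) = 𝔠 := by rw [mk_set, mk_nat, two_power_aleph0]
  obtain ⟨e⟩ : Nonempty ((𝓓 ⊕ ℕ) × ℕ ↪ Set ℕ) := by
    rw [← Cardinal.le_def, hset]
    exact hJ.le
  obtain ⟨φ⟩ : Nonempty (ℕ ≃ Pt) := nonempty_equiv_of_countable
  obtain ⟨I, hsub, hind, -, hP, hQ⟩ := hG (range (M 𝓓 e φ))
    (independent_range φ hd e.injective) (mk_range_le.trans_lt hJ)
  have hmem := mem_df φ hd e.injective hsub hind
  have hcap : ∀ X ∈ densityFilter I, ∀ Y ∈ densityFilter I, X ∩ Y ∈ densityFilter I :=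
    fun X hX Y hY => df_inter hind hX hY
  let tt : ℕ → List (List ℕ) := fun z => (φ z).1
  let L : ℕ → ℕ := fun z => (tt z).length
  let nx : ℕ → List ℕ → List ℕ := fun z σ => σ ++ (tt z).getD (Encodable.encode σ) [] ++ [0]
  let H : ℕ → ℕ := fun z => (Finset.range (L z)).sup (fun i =>
    ((Encodable.decode (α := List ℕ) i).map fun σ => Encodable.encode (nx z σ)).getD 0) + 1
  have hH : ∀ z σ, Encodable.encode σ < L z → Encodable.encode (nx z σ) < H z := by
    intro z σ hσ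
    have h1 := Finset.le_sup (f := fun i =>
      ((Encodable.decode (α := List ℕ) i).map fun σ => Encodable.encode (nx z σ)).getD 0)
      (Finset.mem_range.2 hσ)
    simp only [Encodable.encodek, Option.map_some, Option.getD_some] at h1
    exact Nat.lt_succ_of_le h1
  obtain ⟨D, hD, hDs⟩ := sparse hP hQ hcap L H (fun n => hmem (Sum.inr n))
  have hLinj : Set.InjOn L D := by
    intro z hz z' hz' h
    by_contra hne
    rcases hDs z hz z' hz' hne with h1 | h1
    · exact absurd h1.1 (by rw [h]; exact lt_irrefl _)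
    · exact absurd h1.1 (by rw [h]; exact lt_irrefl _)
  have hEinf : (Set.ofPred (· ∈ L '' D)).Infinite := hD.1.image hLinj
  have hz : ∀ k, ∃ z ∈ D, L z = Nat.nth (· ∈ L '' D) k := fun k => by
    obtain ⟨z, hz, h⟩ := Nat.nth_mem_of_infinite hEinf k
    exact ⟨z, hz, h⟩
  choose z hzD hzL using hz
  have hzmono : ∀ k k', k < k' → L (z k) < L (z k') := by
    intro k k' h
    rw [hzL, hzL]
    exact Nat.nth_strictMono hEinf h
  have hzH : ∀ k, H (z k) ≤ L (z (k + 1)) := by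
    intro k
    have h1 := hzmono k (k + 1) (Nat.lt_succ_self k)
    rcases hDs (z k) (hzD k) (z (k + 1)) (hzD _) (by
      intro h
      rw [h] at h1
      exact lt_irrefl _ h1) with h2 | h2
    · exact h2.2
    · exact absurd h2.1 (not_lt.2 h1.le)
  have hzsurj : ∀ y ∈ D, ∃ k, z k = y := by
    intro y hy
    have h1 : L y ∈ Set.range (Nat.nth (· ∈ L '' D)) := by
      rw [Nat.range_nth_of_infinite hEinf]
      exact ⟨y, hy, rfl⟩
    obtain ⟨k, hk⟩ := h1
    exact ⟨k, hLinj (hzD k) hy (by rw [hzL, hk])⟩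
  let σ : ℕ → List ℕ := fun k => Nat.rec (motive := fun _ => List ℕ) [] (fun k s => nx (z (k + 1)) s) k
  have σ0 : σ 0 = [] := rfl
  have σS : ∀ k, σ (k + 1) = nx (z (k + 1)) (σ k) := fun k => rfl
  have hinv : ∀ k, Encodable.encode (σ k) < L (z (k + 1)) := by
    intro k
    induction k with
    | zero =>
      rw [σ0, Encodable.encode_list_nil]
      exact lt_of_le_of_lt (Nat.zero_le _) (hzmono 0 1 Nat.zero_lt_one)
    | succ k ih =>
      rw [σS]
      exact lt_of_lt_of_le (hH _ _ ih) (hzH (k + 1))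
  have hpre : ∀ k, σ k <+: σ (k + 1) := fun k => by
    rw [σS]
    exact ⟨(tt (z (k + 1))).getD (Encodable.encode (σ k)) [] ++ [0], by
      simp only [nx, List.append_assoc]⟩
  have hpre' : ∀ k l, k ≤ l → σ k <+: σ l := by
    intro k l h
    induction l, h using Nat.le_induction with
    | base => exact List.prefix_refl _
    | succ l _ ih => exact ih.trans (hpre l)
  have hlen : ∀ k, k ≤ (σ k).length := by
    intro k
    induction k with
    | zero => exact Nat.zero_le _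
    | succ k ih =>
      rw [σS]
      simp only [nx, List.length_append, List.length_singleton]
      omega
  let x : ℕ → ℕ := fun n => (σ (n + 1)).getD n 0
  have hx : ∀ k n, (h : n < (σ k).length) → x n = (σ k)[n] := by
    intro k n h
    have h1 : n < (σ (n + 1)).length := lt_of_lt_of_le (Nat.lt_succ_self n) (hlen (n + 1))
    have h2 : x n = (σ (n + 1))[n] := by
      simp only [x]
      exact List.getD_eq_getElem _ _ h1
    rw [h2]
    rcases le_total (n + 1) k with h3 | h3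
    · exact (hpre' _ _ h3).getElem h1
    · exact ((hpre' _ _ h3).getElem h).symm
  have hxpre : ∀ k (d : List ℕ), d <+: σ k → (List.range d.length).map x = d := by
    intro k d hd
    apply List.ext_getElem (by simp)
    intro n h1 h2
    have h3 : n < (σ k).length := lt_of_lt_of_le h2 hd.length_le
    rw [List.getElem_map, List.getElem_range, hx k n h3]
    exact (hd.getElem h2).symm
  refine ⟨x, fun D₀ hD₀ => ?_⟩
  have hY := hmem (Sum.inl ⟨D₀, hD₀⟩)
  have hinf : (D ∩ {z | Yp 𝓓 (Sum.inl ⟨D₀, hD₀⟩) (φ z).1}).Infinite := (hcap _ hD _ hY).1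
  obtain ⟨y, ⟨hyD, hyY⟩, hy0⟩ := (hinf.sdiff (Set.finite_singleton (z 0))).nonempty
  obtain ⟨k, rfl⟩ := hzsurj y hyD
  rcases k with _ | k
  · exact absurd rfl hy0
  obtain ⟨d, hd1, hd2⟩ := hyY (σ k) (hinv k)
  refine ⟨d.length, ?_⟩
  rw [hxpre (k + 1) d (by
    rw [σS]
    exact hd2.trans ⟨[0], rfl⟩)]
  exact hd1

end Pool.Agent.Y803.GE
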