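import Pool.Agent.H458R4.Sel2

/-!
# Extending small independent families to selective independent families (`cov(M) = 𝔠`)

The recursion of `Pool.Agent.H458R4.Sel` started from an arbitrary independent family with fewer
than `𝔠` members, and with two disjoint possible choices at each splitting stage.
-/

namespace Pool.Agent.Y803.GE

open Cardinal Set Pool.Agent.H458R4.Sel

theorem exists_split2 (hC : CohenMA) {S : Set (Bool × Set ℕ)} (h : Good S) (hS : #S < 𝔠)
    {Y : Set ℕ} (hY : Y ∈ FS S) :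
    ∃ X : Bool → Set ℕ, (∀ b, X b ⊆ Y ∧ X b ∉ IS S ∧ Good (insert (true, X b) S)) ∧
      X true ∩ X false = ∅ := by
  classical
  obtain ⟨x, hx⟩ := generic hC (ι := Pos S × Bool) (by
    rw [mk_prod]
    simp only [Cardinal.lift_id]
    exact mul_lt_of_lt aleph0_le_continuum (mk_Pos_lt hS)
      ((lt_aleph0_of_finite _).trans aleph0_lt_continuum))
    (fun i m t => m ∈ i.1.1 ∩ Y ∧ t[m]? = some (if i.2 then 0 else 1)) (by
    rintro ⟨⟨Z, hZ⟩, b⟩ N s
    obtain ⟨m, hm, hmZ⟩ := exists_ge (h.pos (pos_inter hZ hY)) (max N s.length)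
    refine ⟨m, (le_max_left _ _).trans hm,
      s ++ List.replicate (m + 1 - s.length) (if b then 0 else 1), List.prefix_append _ _, hmZ, ?_⟩
    have h2 : s.length ≤ m := (le_max_right _ _).trans hm
    rw [List.getElem?_append_right h2, List.getElem?_replicate, if_pos (by omega)])
  let X' : Bool → Set ℕ := fun b => {m | m ∈ Y ∧ (x m = 0 ↔ b = true)}
  have hin : ∀ b, ∀ Z ∈ Pos S, (Z ∩ X' b).Infinite := by
    intro b Z hZ
    apply infinite_of
    intro N
    obtain ⟨m, hm, n, h1, h2⟩ := hx (⟨Z, hZ⟩, b) N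
    refine ⟨m, hm, h1.1, h1.2, ?_⟩
    have h3 := (val_of h2).2
    cases b
    · simp at h3
      simp [h3]
    · simp at h3
      simp [h3]
  have hdisj : X' true ∩ X' false = ∅ := by
    rw [Set.eq_empty_iff_forall_notMem]
    rintro m ⟨⟨_, h1⟩, ⟨_, h2⟩⟩
    have h3 : x m = 0 := h1.2 rfl
    have h4 := h2.1 h3
    simp at h4
  have key : ∀ b, ∀ Z ∈ Pos S, (Z ∩ X' b).Infinite ∧ (Z \ X' b).Infinite := by
    intro b Z hZ
    refine ⟨hin b Z hZ, (hin (!b) Z hZ).mono ?_⟩
    rintro m ⟨hm, hm'⟩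
    refine ⟨hm, fun hb => ?_⟩
    have : m ∈ X' true ∩ X' false := by
      cases b
      · exact ⟨hm', hb⟩
      · exact ⟨hb, hm'⟩
    rw [hdisj] at this
    exact this
  refine ⟨X', fun b => ⟨fun m hm => hm.1, fun hX' => ?_, good_insert_I (key b)⟩, hdisj⟩
  have h1 := (key b (cell {X' b} ∅ ∩ inter ∅) ⟨{X' b}, ∅, ∅, ⟨fun X hX => ?_, fun X hX => ?_,
    fun X _ => Finset.notMem_empty _⟩, fun X hX => ?_, rfl⟩).2
  · apply h1
    convert Set.finite_empty
    rw [Set.eq_empty_iff_forall_notMem]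
    rintro m ⟨hm, hm'⟩
    exact hm' (hm.1.1 (X' b) (Finset.mem_singleton_self _))
  · rw [Finset.mem_singleton.1 hX]; exact hX'
  · exact absurd hX (Finset.notMem_empty _)
  · exact absurd hX (Finset.notMem_empty _)

/-- two possible items -/
def Does2 (t : Fin 4 × (ℕ → Set ℕ)) (S : Set (Bool × Set ℕ)) (a : Bool → Bool × Set ℕ) : Prop :=
  (∀ b, Good (insert (a b) S) ∧ Does t S (a b)) ∧
  (t.1 = 1 → t.2 0 ∈ FS S → (a true).2 ∩ (a false).2 = ∅)

theorem exists_step2 (hC : CohenMA) (S : Set (Bool × Set ℕ)) (h : Good S) (hS : #S < 𝔠)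
    (t : Fin 4 × (ℕ → Set ℕ)) : ∃ a, Does2 t S a := by
  by_cases ht : t.1 = 1 ∧ t.2 0 ∈ FS S
  · obtain ⟨X, h1, h2⟩ := exists_split2 hC h hS ht.2
    refine ⟨fun b => (true, X b), fun b => ⟨(h1 b).2.2, ?_, ?_, ?_, ?_⟩, fun _ _ => h2⟩
    · intro h'
      rw [ht.1] at h'
      exact absurd h' (by decide)
    · intro _ _
      exact ⟨rfl, (h1 b).1, (h1 b).2.1⟩
    · intro h'
      rw [ht.1] at h'
      exact absurd h' (by decide)
    · intro h'
      rw [ht.1] at h'
      exact absurd h' (by decide)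
  · obtain ⟨a, ha1, ha2⟩ := exists_step hC S h hS t
    exact ⟨fun _ => a, fun _ => ⟨ha1, ha2⟩, fun h1 h2 => absurd ⟨h1, h2⟩ ht⟩

section

variable {Λ : Type} [LinearOrder Λ] [WellFoundedLT Λ] (S₀ : Set (Bool × Set ℕ))
  (task : Λ → Fin 4 × (ℕ → Set ℕ))

/-- the items chosen for a task at a state -/
noncomputable def pick (t : Fin 4 × (ℕ → Set ℕ)) (S : Set (Bool × Set ℕ)) : Bool → Bool × Set ℕ :=
  open Classical in
  if h : ∃ a, Does2 t S a then h.choose else fun _ => (false, Set.univ)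

/-- the items -/
noncomputable def item (ε : Λ → Bool) : Λ → Bool × Set ℕ :=
  wellFounded_lt.fix fun γ ih => pick (task γ) {a | a ∈ S₀ ∨ ∃ β, ∃ h : β < γ, ih β h = a} (ε γ)

/-- the state at stage `γ` -/
def state (ε : Λ → Bool) (γ : Λ) : Set (Bool × Set ℕ) := S₀ ∪ item S₀ task ε '' Iio γ

theorem item_eq (ε : Λ → Bool) (γ : Λ) :
    item S₀ task ε γ = pick (task γ) (state S₀ task ε γ) (ε γ) := by
  rw [item, WellFounded.fix_eq]
  congr 1
  congr 1
  ext a
  simp only [Set.mem_ofPred_eq, state, Set.mem_union, Set.mem_image, Set.mem_Iio, exists_prop]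
  rfl

theorem item_congr {ε ε' : Λ → Bool} (γ : Λ) (h : ∀ β ≤ γ, ε β = ε' β) :
    item S₀ task ε γ = item S₀ task ε' γ := by
  induction γ using WellFoundedLT.induction with
  | ind γ ih =>
    rw [item_eq, item_eq, h γ le_rfl]
    have : state S₀ task ε γ = state S₀ task ε' γ := by
      unfold state
      congr 1
      apply Set.image_congr
      intro β hβ
      exact ih β hβ fun δ hδ => h δ (hδ.trans (le_of_lt hβ))
    rw [this]

theorem state_congr {ε ε' : Λ → Bool} (γ : Λ) (h : ∀ β < γ, ε β = ε' β) :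
    state S₀ task ε γ = state S₀ task ε' γ := by
  unfold state
  congr 1
  apply Set.image_congr
  intro β hβ
  exact item_congr S₀ task β fun δ hδ => h δ (lt_of_le_of_lt hδ hβ)

theorem state_mono (ε : Λ → Bool) : Monotone (state S₀ task ε) := fun _ _ h =>
  Set.union_subset_union_right _ (image_mono (Iio_subset_Iio h))

theorem mk_state_lt (hS₀ : #S₀ < 𝔠) (hΛ : ∀ γ : Λ, #(Iio γ) < 𝔠) (ε : Λ → Bool) (γ : Λ) :
    #(state S₀ task ε γ) < 𝔠 :=
  (mk_union_le _ _).trans_lt (add_lt_of_lt aleph0_le_continuum hS₀ (mk_image_le.trans_lt (hΛ γ)))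

theorem good_state (hC : CohenMA) (hG₀ : Good S₀) (hS₀ : #S₀ < 𝔠)
    (hΛ : ∀ γ : Λ, #(Iio γ) < 𝔠) (ε : Λ → Bool) (γ : Λ) :
    Good (state S₀ task ε γ) ∧ Does2 (task γ) (state S₀ task ε γ)
      (pick (task γ) (state S₀ task ε γ)) := by
  induction γ using WellFoundedLT.induction with
  | ind γ ih =>
    have h1 : Good (state S₀ task ε γ) := by
      rcases isEmpty_or_nonempty (Iio γ) with he | hne
      · have : state S₀ task ε γ = S₀ := by
          rw [state, Set.isEmpty_coe_sort.1 he, image_empty, union_empty]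
        rw [this]
        exact hG₀
      · have : state S₀ task ε γ =
            ⋃ β : Iio γ, insert (item S₀ task ε β.1) (state S₀ task ε β.1) := by
          ext a
          simp only [mem_iUnion, Subtype.exists, mem_Iio]
          constructor
          · rintro (h | ⟨β, hβ, rfl⟩)
            · obtain ⟨β, hβ⟩ := hne
              exact ⟨β, hβ, Or.inr (Or.inl h)⟩
            · exact ⟨β, hβ, Or.inl rfl⟩
          · rintro ⟨β, hβ, rfl | h⟩
            · exact Or.inr ⟨β, hβ, rfl⟩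
            · exact state_mono S₀ task ε (le_of_lt hβ) h
        rw [this]
        refine good_of_chain _ ?_ fun β => ?_
        · rintro ⟨β, hβ⟩ ⟨β', hβ'⟩ hle a ha
          have hle' : β ≤ β' := hle
          rcases hle'.eq_or_lt with rfl | hlt
          · exact ha
          · refine Or.inr ?_
            rcases ha with rfl | ha
            · exact Or.inr ⟨β, hlt, rfl⟩
            · exact state_mono S₀ task ε hle' ha
        · rw [item_eq]
          exact ((ih β.1 β.2).2.1 _).1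
    have h2 := exists_step2 hC (state S₀ task ε γ) h1 (mk_state_lt S₀ task hS₀ hΛ ε γ) (task γ)
    refine ⟨h1, ?_⟩
    rw [pick, dif_pos h2]
    exact h2.choose_spec

/-- the family of all members of the family at some stage -/
def fam (ε : Λ → Bool) : Set (Set ℕ) := IS (⋃ γ, state S₀ task ε γ)

theorem subset_fam [Nonempty Λ] (ε : Λ → Bool) : IS S₀ ⊆ fam S₀ task ε := fun X hX => by
  obtain ⟨γ⟩ := ‹Nonempty Λ›
  exact mem_iUnion.2 ⟨γ, Or.inl hX⟩

variable {S₀ task}

theorem fam_selective [Nonempty Λ] (hC : CohenMA) (hG₀ : Good S₀) (hS₀ : #S₀ < 𝔠)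
    (hΛ2 : ∀ γ : Λ, #(Iio γ) < 𝔠)
    (hΛ3 : ∀ C : Set Λ, C.Countable → ∃ b, ∀ c ∈ C, c < b)
    (htask : ∀ t β, ∃ γ, β ≤ γ ∧ task γ = t) (ε : Λ → Bool) :
    Selective (fam S₀ task ε) ∧ ∀ Y ∈ FS S₀, Y ∈ densityFilter (fam S₀ task ε) := by
  classical
  have hgs0 := good_state S₀ task hC hG₀ hS₀ hΛ2 ε
  have hgs : ∀ γ, Good (state S₀ task ε γ) ∧
      Does (task γ) (state S₀ task ε γ) (item S₀ task ε γ) := fun γ => by
    refine ⟨(hgs0 γ).1, ?_⟩
    rw [item_eq]
    exact ((hgs0 γ).2.1 _).2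
  set SS : Set (Bool × Set ℕ) := ⋃ γ, state S₀ task ε γ with hSS
  have hgood : Good SS := good_of_chain _ (state_mono S₀ task ε) fun γ => (hgs γ).1
  have hitem : ∀ γ, item S₀ task ε γ ∈ SS := by
    intro γ
    obtain ⟨b, hb⟩ := hΛ3 {γ} (Set.countable_singleton _)
    exact mem_iUnion.2 ⟨b, Or.inr ⟨γ, hb γ rfl, rfl⟩⟩
  have hsub : ∀ γ, state S₀ task ε γ ⊆ SS := fun γ => subset_iUnion _ γ
  have hbd : ∀ C : Set (Bool × Set ℕ), C.Countable → C ⊆ SS → ∃ β, C ⊆ state S₀ task ε β := by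
    intro C hC hCS
    have h1 : ∀ a : C, ∃ γ, a.1 ∈ state S₀ task ε γ := fun a => mem_iUnion.1 (hCS a.2)
    choose g hg using h1
    have hCc : Countable C := hC
    obtain ⟨b, hb⟩ := hΛ3 (range g) (countable_range g)
    exact ⟨b, fun a ha => state_mono S₀ task ε (hb _ ⟨⟨a, ha⟩, rfl⟩).le (hg ⟨a, ha⟩)⟩
  -- a late stage with a given task and containing given finite families
  have hstage : ∀ (A B : Finset (Set ℕ)) (C : Set (Set ℕ)), IsFF (IS SS) A B → C.Countable →
      C ⊆ FS SS → ∀ t, ∃ γ, task γ = t ∧ IsFF (IS (state S₀ task ε γ)) A B ∧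
        C ⊆ FS (state S₀ task ε γ) := by
    intro A B C hAB hCc hCS t
    obtain ⟨β, hβ⟩ := hbd ((fun X => (true, X)) '' (A : Set (Set ℕ)) ∪
      (fun X => (true, X)) '' (B : Set (Set ℕ)) ∪ (fun X => (false, X)) '' C)
      (((A.countable_toSet.image _).union (B.countable_toSet.image _)).union (hCc.image _)) (by
        rintro a ((⟨X, hX, rfl⟩ | ⟨X, hX, rfl⟩) | ⟨X, hX, rfl⟩)
        · exact hAB.left X hX
        · exact hAB.right X hX
        · exact hCS hX)
    obtain ⟨γ, hγ, hγt⟩ := htask t β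
    have h1 := hβ.trans (state_mono S₀ task ε hγ)
    exact ⟨γ, hγt, ⟨fun X hX => h1 (Or.inl (Or.inl ⟨X, hX, rfl⟩)),
      fun X hX => h1 (Or.inl (Or.inr ⟨X, hX, rfl⟩)), hAB.disj⟩,
      fun X hX => h1 (Or.inr ⟨X, hX, rfl⟩)⟩
  -- members of the filter contain cells
  have hfil : ∀ Y ∈ FS SS, ∀ A B, IsFF (IS SS) A B → ∃ A' B', A ⊆ A' ∧ B ⊆ B' ∧
      IsFF (IS SS) A' B' ∧ cell A' B' ⊆ Y := by
    intro Y hY A B hAB
    obtain ⟨γ, hγt, hAB', hY'⟩ := hstage A B {Y} hAB (countable_singleton _)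
      (singleton_subset_iff.2 hY) (1, fun _ => Y)
    obtain ⟨_, h1, _, _⟩ := (hgs γ).2
    rw [hγt] at h1
    obtain ⟨h2, h3, h4⟩ := h1 rfl (hY' rfl)
    have h5 : (true, (item S₀ task ε γ).2) ∈ SS := by
      have h6 : (true, (item S₀ task ε γ).2) = item S₀ task ε γ := by rw [← h2]
      rw [h6]
      exact hitem γ
    refine ⟨insert (item S₀ task ε γ).2 A, B, Finset.subset_insert _ _, Finset.Subset.refl _,
      ⟨fun X hX => ?_, hAB.right, fun X hX hXB => ?_⟩, fun n hn => ?_⟩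
    · rcases Finset.mem_insert.1 hX with rfl | h
      · exact h5
      · exact hAB.left X h
    · rcases Finset.mem_insert.1 hX with rfl | h
      · exact h4 (hAB'.right _ hXB)
      · exact hAB.disj X h hXB
    · exact h3 (hn.1 _ (Finset.mem_insert_self _ _))
  have hfilG : ∀ G : Finset (Set ℕ), (∀ X ∈ G, X ∈ FS SS) → ∀ A B, IsFF (IS SS) A B →
      ∃ A' B', A ⊆ A' ∧ B ⊆ B' ∧ IsFF (IS SS) A' B' ∧ cell A' B' ⊆ inter G := by
    intro G
    induction G using Finset.induction_on with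
    | empty =>
      intro _ A B hAB
      exact ⟨A, B, Finset.Subset.refl _, Finset.Subset.refl _, hAB,
        fun n _ X hX => absurd hX (Finset.notMem_empty _)⟩
    | insert Y G _ ih =>
      intro hG A B hAB
      obtain ⟨A1, B1, h1, h2, h3, h4⟩ := ih (fun X hX => hG X (Finset.mem_insert_of_mem hX)) A B hAB
      obtain ⟨A2, B2, h5, h6, h7, h8⟩ := hfil Y (hG Y (Finset.mem_insert_self _ _)) A1 B1 h3
      refine ⟨A2, B2, h1.trans h5, h2.trans h6, h7, fun n hn X hX => ?_⟩
      rcases Finset.mem_insert.1 hX with rfl | hX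
      · exact h8 hn
      · exact h4 ⟨fun Z hZ => hn.1 Z (h5 hZ), fun Z hZ => hn.2 Z (h6 hZ)⟩ X hX
  have hind : ∀ A B, IsFF (IS SS) A B → (cell A B).Infinite := by
    intro A B hAB
    exact (hgood A B ∅ hAB fun X hX => absurd hX (Finset.notMem_empty _)).mono inter_subset_left
  have hFinf : ∀ Y ∈ FS SS, Y.Infinite := by
    intro Y hY
    refine (hgood ∅ ∅ {Y} ⟨fun X hX => absurd hX (Finset.notMem_empty _),
      fun X hX => absurd hX (Finset.notMem_empty _), fun X hX => absurd hX (Finset.notMem_empty _)⟩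
      fun X hX => by rw [Finset.mem_singleton.1 hX]; exact hY).mono ?_
    rintro n ⟨_, hn⟩
    exact hn Y (Finset.mem_singleton_self _)
  have hcellmono : ∀ {A B A' B' : Finset (Set ℕ)}, A ⊆ A' → B ⊆ B' → cell A' B' ⊆ cell A B :=
    fun h1 h2 n hn => ⟨fun X hX => hn.1 X (h1 hX), fun X hX => hn.2 X (h2 hX)⟩
  have hFF : ∀ γ A B, IsFF (IS (state S₀ task ε γ)) A B → IsFF (IS SS) A B := fun γ A B h =>
    ⟨fun X hX => hsub γ (h.left X hX), fun X hX => hsub γ (h.right X hX), h.disj⟩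
  -- the density filter
  have hdf1 : ∀ Y ∈ FS SS, Y ∈ densityFilter (IS SS) := by
    intro Y hY
    refine ⟨hFinf Y hY, fun A B hAB => ?_⟩
    obtain ⟨A', B', h1, h2, h3, h4⟩ := hfil Y hY A B hAB
    exact ⟨A', B', h1, h2, h3, by rw [sdiff_eq_empty.2 h4]; exact finite_empty⟩
  have hemptyFF : IsFF (IS SS) ∅ ∅ := ⟨fun X hX => absurd hX (Finset.notMem_empty _),
      fun X hX => absurd hX (Finset.notMem_empty _), fun X hX => absurd hX (Finset.notMem_empty _)⟩
  have hfill : ∀ γ X, task γ = (0, fun _ => X) → fill (state S₀ task ε γ) X ∈ FS SS := by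
    intro γ X hγ
    obtain ⟨h0, _⟩ := (hgs γ).2
    rw [hγ] at h0
    have := hitem γ
    rw [h0 rfl] at this
    exact this
  have hdf2 : ∀ X ∈ densityFilter (IS SS), X ∈ FS SS := by
    intro X hX
    obtain ⟨γ, hγt, _, _⟩ := hstage ∅ ∅ ∅ hemptyFF countable_empty (empty_subset _)
      (0, fun _ => X)
    have h1 := hfill γ X hγt
    have h2 : fill (state S₀ task ε γ) X = X := by
      ext n
      constructor
      · rintro (h | ⟨⟨A, B⟩, ⟨hAB, G, hG, hfin⟩, hn⟩)
        · exact h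
        · exfalso
          obtain ⟨A1, B1, h3, h4, h5, h6⟩ := hX.2 A B (hFF γ A B hAB)
          obtain ⟨A2, B2, h7, h8, h9, h10⟩ := hfilG G (fun Y hY => hsub γ (hG Y hY)) A1 B1 h5
          apply hind A2 B2 h9
          refine (h6.union hfin).subset fun m hm => ?_
          have hm1 := hcellmono h7 h8 hm
          by_cases hmX : m ∈ X
          · exact Or.inr ⟨⟨hcellmono h3 h4 hm1, h10 hm⟩, hmX⟩
          · exact Or.inl ⟨hm1, hmX⟩
      · exact fun h => Or.inl h
    rw [h2] at h1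
    exact h1
  refine ⟨?_, fun Y hY => hdf1 Y (by
    obtain ⟨γ⟩ := ‹Nonempty Λ›
    exact mem_iUnion.2 ⟨γ, Or.inl hY⟩)⟩
  refine ⟨⟨fun X hX => ?_, hind⟩, ?_, ?_, ?_⟩
  · -- members of the family are infinite
    refine (hind {X} ∅ ⟨fun Y hY => by rw [Finset.mem_singleton.1 hY]; exact hX,
      fun Y hY => absurd hY (Finset.notMem_empty _), fun Y _ => Finset.notMem_empty _⟩).mono ?_
    intro n hn
    exact hn.1 X (Finset.mem_singleton_self _)
  · -- densely maximal
    intro X _ A B hAB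
    obtain ⟨γ, hγt, hAB', _⟩ := hstage A B ∅ hAB countable_empty (empty_subset _) (0, fun _ => X)
    by_cases hK : ∃ A1 B1, A ⊆ A1 ∧ B ⊆ B1 ∧ (A1, B1) ∈ K (state S₀ task ε γ) X
    · obtain ⟨A1, B1, h1, h2, h3, G, hG, hfin⟩ := hK
      obtain ⟨A2, B2, h4, h5, h6, h7⟩ := hfilG G (fun Y hY => hsub γ (hG Y hY)) A1 B1
        (hFF γ A1 B1 h3)
      refine ⟨A2, B2, h1.trans h4, h2.trans h5, h6, Or.inr (hfin.subset fun m hm => ?_)⟩
      exact ⟨⟨hcellmono h4 h5 hm.1, h7 hm.1⟩, hm.2⟩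
    · obtain ⟨A1, B1, h1, h2, h3, h4⟩ := hfil _ (hfill γ X hγt) A B hAB
      refine ⟨A1, B1, h1, h2, h3, Or.inl ?_⟩
      have h5 : cell A1 B1 \ X = ∅ := by
        rw [eq_empty_iff_forall_notMem]
        rintro m ⟨hm, hmX⟩
        rcases h4 hm with h | ⟨⟨A2, B2⟩, hK2, hm2⟩
        · exact hmX h
        · apply hK
          refine ⟨A ∪ A2, B ∪ B2, Finset.subset_union_left, Finset.subset_union_left,
            ⟨fun Y hY => ?_, fun Y hY => ?_, fun Y hY hY' => ?_⟩, ?_⟩
          · rcases Finset.mem_union.1 hY with h | h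
            · exact hAB'.left Y h
            · exact hK2.1.left Y h
          · rcases Finset.mem_union.1 hY with h | h
            · exact hAB'.right Y h
            · exact hK2.1.right Y h
          · have h6 : m ∈ Y := by
              rcases Finset.mem_union.1 hY with h | h
              · exact hm.1 Y (h1 h)
              · exact hm2.1 Y h
            rcases Finset.mem_union.1 hY' with h | h
            · exact hm.2 Y (h2 h) h6
            · exact hm2.2 Y h h6
          · obtain ⟨G, hG, hfin⟩ := hK2.2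
            refine ⟨G, hG, hfin.subset fun k hk => ⟨⟨?_, hk.1.2⟩, hk.2⟩⟩
            exact hcellmono Finset.subset_union_right Finset.subset_union_right hk.1.1
      rw [h5]
      exact finite_empty
  · -- P-set
    intro A hA
    obtain ⟨γ, hγt, _, hAγ⟩ := hstage ∅ ∅ (range A) hemptyFF (countable_range A) (by
      rintro _ ⟨n, rfl⟩
      exact hdf2 _ (hA n)) (2, A)
    obtain ⟨_, _, h1, _⟩ := (hgs γ).2
    rw [hγt] at h1
    obtain ⟨h2, h3⟩ := h1 rfl fun n => hAγ ⟨n, rfl⟩
    refine ⟨(item S₀ task ε γ).2, hdf1 _ ?_, h3⟩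
    have h6 : (false, (item S₀ task ε γ).2) = item S₀ task ε γ := by rw [← h2]
    show (false, (item S₀ task ε γ).2) ∈ SS
    rw [h6]
    exact hitem γ
  · -- Q-set
    intro P hP hP'
    obtain ⟨γ, hγt, _, _⟩ := hstage ∅ ∅ ∅ hemptyFF countable_empty (empty_subset _) (3, P)
    obtain ⟨_, _, _, h1⟩ := (hgs γ).2
    rw [hγt] at h1
    obtain ⟨h2, h3⟩ := h1 rfl hP hP'
    refine ⟨(item S₀ task ε γ).2, hdf1 _ ?_, h3⟩
    have h6 : (false, (item S₀ task ε γ).2) = item S₀ task ε γ := by rw [← h2]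
    show (false, (item S₀ task ε γ).2) ∈ SS
    rw [h6]
    exact hitem γ

/-- different choices at splitting stages give different families -/
theorem fam_injective [Nonempty Λ] (hC : CohenMA) (hG₀ : Good S₀) (hS₀ : #S₀ < 𝔠)
    (huniv : Set.univ ∈ FS S₀)
    (hΛ2 : ∀ γ : Λ, #(Iio γ) < 𝔠)
    (hΛ3 : ∀ C : Set Λ, C.Countable → ∃ b, ∀ c ∈ C, c < b)
    (htask : ∀ t β, ∃ γ, β ≤ γ ∧ task γ = t) {ε ε' : Λ → Bool}
    (hε : ∀ γ, ε γ ≠ ε' γ → task γ = (1, fun _ => Set.univ))
    (h : fam S₀ task ε = fam S₀ task ε') : ε = ε' := by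
  classical
  by_contra hne
  have hne' : ∃ γ, ε γ ≠ ε' γ := by
    by_contra hcon
    push Not at hcon
    exact hne (funext hcon)
  obtain ⟨γ, hγ, hmin⟩ := wellFounded_lt.has_min {γ : Λ | ε γ ≠ ε' γ} hne'
  have hlt : ∀ β < γ, ε β = ε' β := by
    intro β hβ
    by_contra hcon
    exact hmin β hcon hβ
  have hst := state_congr S₀ task γ hlt
  have hd := (good_state S₀ task hC hG₀ hS₀ hΛ2 ε γ).2
  have ht := hε γ hγ
  have hY : (task γ).2 0 ∈ FS (state S₀ task ε γ) := by
    rw [ht]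
    exact Or.inl huniv
  have hdisj := hd.2 (by rw [ht]) hY
  have hitem : ∀ (ε : Λ → Bool), (item S₀ task ε γ).1 = true → (item S₀ task ε γ).2 ∈ fam S₀ task ε := by
    intro ε hb
    obtain ⟨b, hb'⟩ := hΛ3 {γ} (Set.countable_singleton _)
    have h6 : (true, (item S₀ task ε γ).2) = item S₀ task ε γ := by rw [← hb]
    show (true, (item S₀ task ε γ).2) ∈ ⋃ γ, state S₀ task ε γ
    rw [h6]
    exact mem_iUnion.2 ⟨b, Or.inr ⟨γ, hb' γ rfl, rfl⟩⟩
  have e1 : item S₀ task ε γ = pick (task γ) (state S₀ task ε γ) (ε γ) := item_eq S₀ task ε γ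
  have e2 : item S₀ task ε' γ = pick (task γ) (state S₀ task ε γ) (ε' γ) := by
    rw [item_eq S₀ task ε' γ, hst]
  have hfst : ∀ b, (pick (task γ) (state S₀ task ε γ) b).1 = true := fun b =>
    ((hd.1 b).2.2.1 (by rw [ht]) hY).1
  have m1 := hitem ε (by rw [e1]; exact hfst _)
  have m2 := hitem ε' (by rw [e2]; exact hfst _)
  rw [← h] at m2
  have hdis : (item S₀ task ε γ).2 ∩ (item S₀ task ε' γ).2 = ∅ := by
    rw [e1, e2]
    rcases hb : ε γ with _ | _
    · have hb' : ε' γ = true := by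
        rcases hb'' : ε' γ with _ | _
        · exact absurd (hb.trans hb''.symm) hγ
        · rfl
      rw [hb', Set.inter_comm]
      exact hdisj
    · have hb' : ε' γ = false := by
        rcases hb'' : ε' γ with _ | _
        · rfl
        · exact absurd (hb.trans hb''.symm) hγ
      rw [hb']
      exact hdisj
  have hsel := (fam_selective hC hG₀ hS₀ hΛ2 hΛ3 htask ε).1
  have hinf := hsel.1.2 {(item S₀ task ε γ).2, (item S₀ task ε' γ).2} ∅
    ⟨fun X hX => by
      rcases Finset.mem_insert.1 hX with rfl | hX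
      · exact m1
      · rw [Finset.mem_singleton.1 hX]; exact m2,
    fun X hX => absurd hX (Finset.notMem_empty _), fun X _ => Finset.notMem_empty _⟩
  apply hinf
  convert Set.finite_empty
  rw [Set.eq_empty_iff_forall_notMem]
  intro n hn
  have h1 := hn.1 _ (Finset.mem_insert_self _ _)
  have h2 := hn.1 (item S₀ task ε' γ).2 (Finset.mem_insert_of_mem (Finset.mem_singleton_self _))
  have h3 : n ∈ (item S₀ task ε γ).2 ∩ (item S₀ task ε' γ).2 := ⟨h1, h2⟩
  rw [hdis] at h3
  exact h3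

end

theorem exists_task2 {Λ : Type} [LinearOrder Λ] (hΛ : #Λ = 𝔠) (hΛ' : ∀ γ : Λ, #(Iio γ) < 𝔠) :
    ∃ task : Λ → Fin 4 × (ℕ → Set ℕ), (∀ t β, ∃ γ, β ≤ γ ∧ task γ = t) ∧
      ∀ t, 𝔠 ≤ #{γ // task γ = t} := by
  have h1 : #Λ = #(Λ × (Fin 4 × (ℕ → Set ℕ))) := by
    rw [mk_prod, Cardinal.lift_id, Cardinal.lift_id, mk_task, hΛ, continuum_mul_self]
  obtain ⟨e⟩ := Cardinal.eq.1 h1
  refine ⟨fun γ => (e γ).2, fun t β => ?_, fun t => ?_⟩
  · by_contra hcon
    push Not at hcon
    have h2 : ∀ l : Λ, e.symm (l, t) ∈ Iio β := by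
      intro l
      by_contra h
      exact hcon (e.symm (l, t)) (not_lt.1 h) (by rw [Equiv.apply_symm_apply])
    have h3 : #Λ ≤ #(Iio β) := by
      refine mk_le_of_injective (f := fun l => (⟨e.symm (l, t), h2 l⟩ : Iio β)) ?_
      intro l l' hl
      have h4 := e.symm.injective (congrArg Subtype.val hl)
      exact (Prod.mk.inj h4).1
    rw [hΛ] at h3
    exact absurd (hΛ' β) (not_lt.2 h3)
  · rw [← hΛ]
    refine mk_le_of_injective (f := fun l : Λ => (⟨e.symm (l, t), by
      rw [Equiv.apply_symm_apply]⟩ : {γ // (e γ).2 = t})) ?_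
    intro l l' hl
    have h4 := e.symm.injective (congrArg Subtype.val hl)
    exact (Prod.mk.inj h4).1

/-- `I` is an independent family of infinite sets, and all its Boolean combinations are infinite
on all the finite intersections of members of `F`. -/
def Compatible (I F : Set (Set ℕ)) : Prop :=
  (∀ X ∈ I, X.Infinite) ∧ ∀ A B G : Finset (Set ℕ), IsFF I A B → (∀ Y ∈ G, Y ∈ F) →
    {n | n ∈ cell A B ∧ ∀ Y ∈ G, n ∈ Y}.Infinite

/-- the initial state given by a family and a filter base -/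
def base (I F : Set (Set ℕ)) : Set (Bool × Set ℕ) :=
  insert (false, Set.univ) ((fun X => (true, X)) '' I ∪ (fun X => (false, X)) '' F)

theorem IS_base (I F : Set (Set ℕ)) : IS (base I F) = I := by
  ext X
  simp [IS, base]

theorem good_base {I F : Set (Set ℕ)} (h : Compatible I F) : Good (base I F) := by
  classical
  intro A B G hAB hG
  rw [IS_base] at hAB
  refine (h.2 A B (G.filter (· ∈ F)) hAB (fun Y hY => (Finset.mem_filter.1 hY).2)).mono ?_
  rintro n ⟨hn, hn'⟩
  refine ⟨hn, fun X hX => ?_⟩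
  have h1 : X = Set.univ ∨ X ∈ F := by
    have := hG X hX
    simpa [FS, base] using this
  rcases h1 with rfl | h1
  · trivial
  · exact hn' X (Finset.mem_filter.2 ⟨hX, h1⟩)

theorem mk_base_lt {I F : Set (Set ℕ)} (h : #I < 𝔠) (h' : #F < 𝔠) : #(base I F) < 𝔠 := by
  refine (mk_insert_le).trans_lt ?_
  exact add_lt_of_lt aleph0_le_continuum ((mk_union_le _ _).trans_lt
    (add_lt_of_lt aleph0_le_continuum (mk_image_le.trans_lt h) (mk_image_le.trans_lt h')))
    (one_lt_aleph0.trans aleph0_lt_continuum)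

/-- **Theorem.** If `cov(M) = 𝔠` then each compatible pair of families with fewer than `𝔠` members
is extended by exactly `2^𝔠` selective independent families. -/
theorem mk_selective (hC : CohenMA) {I₀ F₀ : Set (Set ℕ)} (hI : Compatible I₀ F₀) (hc : #I₀ < 𝔠)
    (hc' : #F₀ < 𝔠) :
    #{I : Set (Set ℕ) | Selective I ∧ I₀ ⊆ I ∧ F₀ ⊆ densityFilter I} = 2 ^ 𝔠 := by
  classical
  obtain ⟨Λ, _, _, _, hΛ1, hΛ2, hΛ3⟩ := exists_length
  obtain ⟨task, htask, hcard⟩ := exists_task2 hΛ1 hΛ2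
  have hb := good_base hI
  have hb' := mk_base_lt hc hc'
  apply le_antisymm
  · refine (mk_set_le _).trans ?_
    rw [mk_set, mk_set, mk_nat, two_power_aleph0]
  · let t₁ : Fin 4 × (ℕ → Set ℕ) := (1, fun _ => Set.univ)
    have h1 : (2 : Cardinal) ^ 𝔠 ≤ #({γ // task γ = t₁} → Bool) := by
      rw [← power_def, mk_bool]
      exact power_le_power_left two_ne_zero (hcard t₁)
    refine h1.trans ?_
    let ext : ({γ // task γ = t₁} → Bool) → Λ → Bool := fun f γ =>
      if h : task γ = t₁ then f ⟨γ, h⟩ else false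
    refine mk_le_of_injective (f := fun f => (⟨fam (base I₀ F₀) task (ext f), ?_, ?_, ?_⟩ :
      {I : Set (Set ℕ) | Selective I ∧ I₀ ⊆ I ∧ F₀ ⊆ densityFilter I})) ?_
    · exact (fam_selective hC hb hb' hΛ2 hΛ3 htask _).1
    · have := subset_fam (base I₀ F₀) task (ext f)
      rwa [IS_base] at this
    · intro Y hY
      exact (fam_selective hC hb hb' hΛ2 hΛ3 htask _).2 Y (by simp [FS, base, hY])
    · intro f g hfg
      have h2 : ext f = ext g := by
        refine fam_injective hC hb hb' (by simp [FS, base]) hΛ2 hΛ3 htask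
          ?_ (congrArg Subtype.val hfg)
        intro γ hγ
        by_contra hcon
        apply hγ
        simp only [ext]
        rw [dif_neg hcon, dif_neg hcon]
      funext γ
      have h3 := congrFun h2 γ.1
      simp only [ext] at h3
      rw [dif_pos γ.2, dif_pos γ.2] at h3
      exact h3

theorem compatible_empty {I : Set (Set ℕ)} (h : Independent I) : Compatible I ∅ :=
  ⟨h.1, fun A B G hAB hG => (h.2 A B hAB).mono fun n hn => ⟨hn, fun Y hY => absurd (hG Y hY)
    (Set.notMem_empty _)⟩⟩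

theorem exists_of_mk {I₀ F₀ : Set (Set ℕ)}
    (h : #{I : Set (Set ℕ) | Selective I ∧ I₀ ⊆ I ∧ F₀ ⊆ densityFilter I} = 2 ^ 𝔠) :
    ∃ I, Selective I ∧ I₀ ⊆ I ∧ F₀ ⊆ densityFilter I := by
  have h1 : #{I : Set (Set ℕ) | Selective I ∧ I₀ ⊆ I ∧ F₀ ⊆ densityFilter I} ≠ 0 := by
    rw [h]
    exact power_ne_zero _ two_ne_zero
  rw [mk_ne_zero_iff] at h1
  obtain ⟨I, hI⟩ := h1
  exact ⟨I, hI⟩

end Pool.Agent.Y803.GE
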